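import Pool.Agent.H98.ABCR.Stmts2

set_option autoImplicit false

namespace Pool.Agent.H98.ABCR

open Finset Polynomial

private lemma uenr_slog_le (S : Finset ℕ) (z : ℤ) : slog S z ≤ Real.log |(z : ℝ)| := by
  have h1 : |(z : ℝ)| = ((z.natAbs : ℕ) : ℝ) := by
    rw [Nat.cast_natAbs]; simp
  rw [h1, Real.log_nat_eq_sum_factorization, slog, Finsupp.sum]
  unfold vv
  calc ∑ q ∈ S, (z.natAbs.factorization q : ℝ) * Real.log q
      ≤ ∑ q ∈ S ∪ z.natAbs.factorization.support,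
          (z.natAbs.factorization q : ℝ) * Real.log q := by
        apply Finset.sum_le_sum_of_subset_of_nonneg Finset.subset_union_left
        intro i _ _
        exact mul_nonneg (Nat.cast_nonneg _) (Real.log_natCast_nonneg _)
    _ = ∑ q ∈ z.natAbs.factorization.support,
          (z.natAbs.factorization q : ℝ) * Real.log q := by
        symm
        apply Finset.sum_subset Finset.subset_union_right
        intro i _ hi
        rw [Finsupp.notMem_support_iff] at hi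
        rw [hi]; simp

private lemma uenr_logz_le (x y : ℤ) (hz : x + y ≠ 0) :
    Real.log |((x + y : ℤ) : ℝ)| ≤ lh x y := by
  have h1 : |((x + y : ℤ) : ℝ)| = (((x + y).natAbs : ℕ) : ℝ) := by
    rw [Nat.cast_natAbs, Int.cast_abs]
  rw [h1, lh]
  apply Real.log_le_log
  · have : 0 < (x + y).natAbs := Int.natAbs_pos.mpr hz
    exact_mod_cast this
  · have : (x + y).natAbs ≤ ht x y := le_max_right _ _
    exact_mod_cast this

private lemma uenr_roots (q k : ℕ) (hq : q.Prime) (hk : 0 < k) (α β : ℤ) :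
    ((range q).filter (fun m : ℕ => (α : ZMod q) * (m : ZMod q) ^ k + (β : ZMod q) = 0 ∧
      ¬ (q : ℤ) ∣ α)).card ≤ k := by
  have : Fact q.Prime := ⟨hq⟩
  by_cases h : (q : ℤ) ∣ α
  · rw [Finset.filter_eq_empty_iff.mpr]
    · simp
    · intro m _ hm
      exact hm.2 h
  · have hα : (α : ZMod q) ≠ 0 := by
      intro h0
      exact h ((ZMod.intCast_zmod_eq_zero_iff_dvd α q).mp h0)
    set P : (ZMod q)[X] := C (α : ZMod q) * X ^ k + C (β : ZMod q) with hP
    have hP0 : P ≠ 0 := by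
      intro h0
      have h1 : P.coeff k = 0 := by rw [h0]; simp
      rw [hP, Polynomial.coeff_add, Polynomial.coeff_C_mul, Polynomial.coeff_X_pow,
        Polynomial.coeff_C, if_pos rfl, if_neg hk.ne'] at h1
      apply hα
      simpa using h1
    have hdeg : P.natDegree ≤ k := by
      rw [hP]; compute_degree
    calc ((range q).filter (fun m : ℕ => (α : ZMod q) * (m : ZMod q) ^ k + (β : ZMod q) = 0 ∧
      ¬ (q : ℤ) ∣ α)).card ≤ P.roots.toFinset.card := by
          apply Finset.card_le_card_of_injOn (fun m : ℕ => (m : ZMod q))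
          · intro m hm
            have hm' := (Finset.mem_filter.mp hm).2.1
            simp only [Multiset.mem_toFinset, Finset.mem_coe]
            rw [Polynomial.mem_roots hP0]
            simp only [Polynomial.IsRoot, hP]
            simpa using hm'
          · intro a ha b hb hab
            have ha' := Finset.mem_range.mp (Finset.mem_filter.mp ha).1
            have hb' := Finset.mem_range.mp (Finset.mem_filter.mp hb).1
            have h2 : (a : ZMod q) = (b : ZMod q) := hab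
            rw [ZMod.natCast_eq_natCast_iff'] at h2
            rwa [Nat.mod_eq_of_lt ha', Nat.mod_eq_of_lt hb'] at h2
      _ ≤ Multiset.card P.roots := Multiset.toFinset_card_le _
      _ ≤ P.natDegree := Polynomial.card_roots' P
      _ ≤ k := hdeg

private lemma uenr_roots1 (q k : ℕ) (hq : q.Prime) (hk : k.Prime) (hne : q % k ≠ 1) (α β : ℤ) :
    ((range q).filter (fun m : ℕ => (α : ZMod q) * (m : ZMod q) ^ k + (β : ZMod q) = 0 ∧
      ¬ (q : ℤ) ∣ α)).card ≤ 1 := by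
  have : Fact q.Prime := ⟨hq⟩
  rw [Finset.card_le_one]
  intro a ha b hb
  obtain ⟨ha0, ha1, ha2⟩ := Finset.mem_filter.mp ha
  obtain ⟨hb0, hb1, _⟩ := Finset.mem_filter.mp hb
  have hα : (α : ZMod q) ≠ 0 := by
    intro h0
    exact ha2 ((ZMod.intCast_zmod_eq_zero_iff_dvd α q).mp h0)
  have h1 : (a : ZMod q) ^ k = (b : ZMod q) ^ k := by
    apply mul_left_cancel₀ hα
    linear_combination ha1 - hb1
  have hcop : Nat.gcd k (q - 1) = 1 := by
    rw [← Nat.coprime_iff_gcd_eq_one, Nat.Prime.coprime_iff_not_dvd hk]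
    intro hd
    apply hne
    have h2 : q ≡ 1 [MOD k] := ((Nat.modEq_iff_dvd' hq.one_lt.le).mpr hd).symm
    have h3 : q % k = 1 % k := h2
    rw [h3, Nat.mod_eq_of_lt hk.one_lt]
  have h4 : (a : ZMod q) = (b : ZMod q) := by
    by_cases hb00 : (b : ZMod q) = 0
    · rw [hb00, zero_pow hk.pos.ne'] at h1
      rw [hb00]
      exact eq_zero_of_pow_eq_zero h1
    · have ha00 : (a : ZMod q) ≠ 0 := by
        intro h0
        rw [h0, zero_pow hk.pos.ne'] at h1
        exact hb00 (eq_zero_of_pow_eq_zero h1.symm)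
      have e1 : ((a : ZMod q) / b) ^ k = 1 := by
        rw [div_pow, h1, div_self (pow_ne_zero _ hb00)]
      have e2 : ((a : ZMod q) / b) ^ (q - 1) = 1 :=
        ZMod.pow_card_sub_one_eq_one (div_ne_zero ha00 hb00)
      have e3 : ((a : ZMod q) / b) ^ Nat.gcd k (q - 1) = 1 := pow_gcd_eq_one.mpr ⟨e1, e2⟩
      rw [hcop, pow_one] at e3
      exact (div_eq_one_iff_eq hb00).mp e3
  have ha' := Finset.mem_range.mp ha0
  have hb' := Finset.mem_range.mp hb0
  rw [ZMod.natCast_eq_natCast_iff'] at h4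
  rwa [Nat.mod_eq_of_lt ha', Nat.mod_eq_of_lt hb'] at h4

private lemma uenr_ndvd {q : ℕ} (hq : q.Prime) {x y : ℤ} (hc : IsCoprime x y)
    (hz : (q : ℤ) ∣ x + y) : ¬ (q : ℤ) ∣ x ∧ ¬ (q : ℤ) ∣ y := by
  have hp : Prime (q : ℤ) := Nat.prime_iff_prime_int.mp hq
  constructor
  · intro h
    have h2 : (q : ℤ) ∣ y := (dvd_add_right h).mp hz
    exact hp.not_isUnit (hc.isUnit_of_dvd' h h2)
  · intro h
    have h2 : (q : ℤ) ∣ x := (dvd_add_left h).mp hz
    exact hp.not_isUnit (hc.isUnit_of_dvd' h2 h)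

private lemma uenr_htx (x y : ℤ) : |(x : ℝ)| ≤ (ht x y : ℝ) := by
  have h1 : |(x : ℝ)| = ((x.natAbs : ℕ) : ℝ) := by
    rw [Nat.cast_natAbs, Int.cast_abs]
  rw [h1]
  have : x.natAbs ≤ ht x y := le_trans (le_max_left _ _) (le_max_left _ _)
  exact_mod_cast this

private lemma uenr_hty (x y : ℤ) : |(y : ℝ)| ≤ (ht x y : ℝ) := by
  have h1 : |(y : ℝ)| = ((y.natAbs : ℕ) : ℝ) := by
    rw [Nat.cast_natAbs, Int.cast_abs]
  rw [h1]
  have : y.natAbs ≤ ht x y := le_trans (le_max_right _ _) (le_max_left _ _)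
  exact_mod_cast this

private lemma uenr_pow_le {α U x : ℤ} {k : ℕ} (hα : 0 < α) (hx : x = α * U ^ k) :
    |(U : ℝ)| ^ k ≤ |(x : ℝ)| := by
  have h1 : (x : ℝ) = (α : ℝ) * (U : ℝ) ^ k := by rw [hx]; push_cast; ring
  rw [h1, abs_mul, abs_pow]
  have h2 : (1 : ℝ) ≤ |(α : ℝ)| := by
    have h3 : (1 : ℝ) ≤ (α : ℝ) := by exact_mod_cast hα
    exact le_trans h3 (le_abs_self _)
  have h4 : (0 : ℝ) ≤ |(U : ℝ)| ^ k := by positivity
  nlinarith

private lemma uenr_linked (k : ℕ) (hk : 0 < k) (S : Finset ℕ) (hS : ∀ q ∈ S, q.Prime) (α β : ℤ)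
    (hα : 0 < α) (hβ : 0 < β) (x1 y1 x2 y2 U1 V1 U2 V2 : ℤ) (s1 : IsSol x1 y1) (s2 : IsSol x2 y2)
    (hx1 : x1 = α * U1 ^ k) (hy1 : y1 = β * V1 ^ k) (hx2 : x2 = α * U2 ^ k)
    (hy2 : y2 = β * V2 ^ k) (θ : ℕ → ℝ) (θi : ℝ) (th0 : ∀ q ∈ S, 0 ≤ θ q) (thi0 : 0 ≤ θi)
    (w1 : ∀ q ∈ S, θ q * lh x1 y1 ≤ (vv q (x1 + y1) : ℝ) * Real.log q)
    (w2 : ∀ q ∈ S, θ q * lh x2 y2 ≤ (vv q (x2 + y2) : ℝ) * Real.log q)
    (wi1 : θi * lh x1 y1 ≤ lh x1 y1 - Real.log |((x1 + y1 : ℤ) : ℝ)|)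
    (wi2 : θi * lh x2 y2 ≤ lh x2 y2 - Real.log |((x2 + y2 : ℤ) : ℝ)|)
    (hlab : ∀ q ∈ S, 0 < θ q → (U1 : ZMod q) * (V1 : ZMod q)⁻¹ = (U2 : ZMod q) * (V2 : ZMod q)⁻¹)
    (hdiv : ∀ q ∈ S, 0 < θ q → (q : ℤ) ∣ x1 + y1 ∧ (q : ℤ) ∣ x2 + y2) :
    Linked k S θ θi x1 y1 x2 y2 (U1 * V2) (U2 * V1) := by
  have hU1 : U1 ≠ 0 := by
    rintro rfl
    apply s1.x0; rw [hx1, zero_pow hk.ne', mul_zero]
  have hU2 : U2 ≠ 0 := by
    rintro rfl
    apply s2.x0; rw [hx2, zero_pow hk.ne', mul_zero]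
  have hV1 : V1 ≠ 0 := by
    rintro rfl
    apply s1.y0.ne'; rw [hy1, zero_pow hk.ne', mul_zero]
  have hV2 : V2 ≠ 0 := by
    rintro rfl
    apply s2.y0.ne'; rw [hy2, zero_pow hk.ne', mul_zero]
  refine ⟨s1, s2, mul_ne_zero hU1 hV2, mul_ne_zero hU2 hV1, ?_, ?_, ?_, hS, th0, thi0, ?_, w1, w2,
    wi1, wi2⟩
  · rw [hx1, hy1, hx2, hy2]; ring
  · rw [Int.cast_mul, abs_mul, mul_pow]
    exact mul_le_mul ((uenr_pow_le hα hx1).trans (uenr_htx x1 y1))
      ((uenr_pow_le hβ hy2).trans (uenr_hty x2 y2)) (by positivity) (by positivity)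
  · rw [Int.cast_mul, abs_mul, mul_pow, mul_comm ((ht x1 y1 : ℝ))]
    exact mul_le_mul ((uenr_pow_le hα hx2).trans (uenr_htx x2 y2))
      ((uenr_pow_le hβ hy1).trans (uenr_hty x1 y1)) (by positivity) (by positivity)
  · intro q hqS hθ
    have hq := hS q hqS
    have : Fact q.Prime := ⟨hq⟩
    have hp : Prime (q : ℤ) := Nat.prime_iff_prime_int.mp hq
    obtain ⟨d1, d2⟩ := hdiv q hqS hθ
    obtain ⟨a1, b1⟩ := uenr_ndvd hq s1.cop d1
    obtain ⟨a2, b2⟩ := uenr_ndvd hq s2.cop d2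
    have hu : ∀ (a U x : ℤ), x = a * U ^ k → ¬ (q : ℤ) ∣ x → ¬ (q : ℤ) ∣ U := by
      intro a U x hx hn hd
      exact hn (hx ▸ Dvd.dvd.mul_left (dvd_pow hd hk.ne') a)
    have e1 := hu _ _ _ hx1 a1
    have e2 := hu _ _ _ hx2 a2
    have f1 := hu _ _ _ hy1 b1
    have f2 := hu _ _ _ hy2 b2
    refine ⟨?_, ?_, ?_⟩
    · intro h
      rcases hp.dvd_or_dvd h with h | h
      · exact e1 h
      · exact f2 h
    · intro h
      rcases hp.dvd_or_dvd h with h | h
      · exact e2 h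
      · exact f1 h
    · have hv1 : (V1 : ZMod q) ≠ 0 := fun h0 =>
        f1 ((ZMod.intCast_zmod_eq_zero_iff_dvd V1 q).mp h0)
      have hv2 : (V2 : ZMod q) ≠ 0 := fun h0 =>
        f2 ((ZMod.intCast_zmod_eq_zero_iff_dvd V2 q).mp h0)
      have hl := hlab q hqS hθ
      have h3 : (U1 : ZMod q) * V2 = U2 * V1 := by
        field_simp at hl
        linear_combination hl
      rw [← ZMod.intCast_zmod_eq_zero_iff_dvd]
      push_cast
      rw [h3, sub_self]

/-- root label -/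
private noncomputable def uenrR (U V : ℤ × ℤ → ℤ) (v : ℤ × ℤ) (q : ℕ) : ℕ := by
  classical
  exact if (q : ℤ) ∣ v.1 + v.2 then (((U v : ZMod q) * (V v : ZMod q)⁻¹ : ZMod q)).val else 0

/-- weight label at `q` -/
private noncomputable def uenrG (Q : ℕ) (v : ℤ × ℤ) (q : ℕ) : ℕ :=
  ⌊(Q : ℝ) * ((vv q (v.1 + v.2) : ℝ) * Real.log q) / lh v.1 v.2⌋₊

/-- weight label at infinity -/
private noncomputable def uenrI (Q : ℕ) (v : ℤ × ℤ) : ℕ :=
  ⌊(Q : ℝ) * (lh v.1 v.2 - Real.log |((v.1 + v.2 : ℤ) : ℝ)|) / lh v.1 v.2⌋₊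

private noncomputable def uenrC (S : Finset ℕ) (Q : ℕ) (v : ℤ × ℤ) : Option S → ℕ :=
  fun o => o.elim (uenrI Q v) (fun q => uenrG Q v q.1)

private lemma uenrG_le (Q : ℕ) (hQ : 0 < Q) (v : ℤ × ℤ) (q : ℕ) (hh : 0 < lh v.1 v.2) :
    (uenrG Q v q : ℝ) / Q * lh v.1 v.2 ≤ (vv q (v.1 + v.2) : ℝ) * Real.log q := by
  have hQ' : (0 : ℝ) < Q := by exact_mod_cast hQ
  have h0 : 0 ≤ (Q : ℝ) * ((vv q (v.1 + v.2) : ℝ) * Real.log q) / lh v.1 v.2 := by
    have := Real.log_natCast_nonneg q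
    positivity
  have h1 : (uenrG Q v q : ℝ) ≤ (Q : ℝ) * ((vv q (v.1 + v.2) : ℝ) * Real.log q) / lh v.1 v.2 :=
    Nat.floor_le h0
  rw [le_div_iff₀ hh] at h1
  rw [div_mul_eq_mul_div, div_le_iff₀ hQ']
  linarith

private lemma uenrI_le (Q : ℕ) (hQ : 0 < Q) (v : ℤ × ℤ) (hh : 0 < lh v.1 v.2)
    (hz : v.1 + v.2 ≠ 0) :
    (uenrI Q v : ℝ) / Q * lh v.1 v.2 ≤ lh v.1 v.2 - Real.log |((v.1 + v.2 : ℤ) : ℝ)| := by
  have hQ' : (0 : ℝ) < Q := by exact_mod_cast hQ
  have h2 := uenr_logz_le v.1 v.2 hz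
  have h0 : 0 ≤ (Q : ℝ) * (lh v.1 v.2 - Real.log |((v.1 + v.2 : ℤ) : ℝ)|) / lh v.1 v.2 := by
    apply div_nonneg _ hh.le
    apply mul_nonneg hQ'.le
    linarith
  have h1 : (uenrI Q v : ℝ) ≤
      (Q : ℝ) * (lh v.1 v.2 - Real.log |((v.1 + v.2 : ℤ) : ℝ)|) / lh v.1 v.2 :=
    Nat.floor_le h0
  rw [le_div_iff₀ hh] at h1
  rw [div_mul_eq_mul_div, div_le_iff₀ hQ']
  linarith

private lemma uenrC_sum_le (S : Finset ℕ) (Q : ℕ) (hQ : 0 < Q) (v : ℤ × ℤ) (hh : 0 < lh v.1 v.2)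
    (hz : v.1 + v.2 ≠ 0) : ∑ o, uenrC S Q v o ≤ Q := by
  have hQ' : (0 : ℝ) < Q := by exact_mod_cast hQ
  have h1 : (∑ o, uenrC S Q v o) = uenrI Q v + ∑ q ∈ S, uenrG Q v q := by
    rw [Fintype.sum_option]
    unfold uenrC
    simp only [Option.elim_none, Option.elim_some]
    congr 1
    rw [Finset.sum_coe_sort S (fun q => uenrG Q v q)]
  rw [h1]
  have h2 : ((uenrI Q v + ∑ q ∈ S, uenrG Q v q : ℕ) : ℝ) * lh v.1 v.2 ≤ Q * lh v.1 v.2 := by
    push_cast
    have a1 := uenrI_le Q hQ v hh hz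
    have a2 : ∑ q ∈ S, (uenrG Q v q : ℝ) / Q * lh v.1 v.2 ≤ slog S (v.1 + v.2) := by
      unfold slog
      exact Finset.sum_le_sum (fun q _ => uenrG_le Q hQ v q hh)
    have a3 := uenr_slog_le S (v.1 + v.2)
    have a4 : ∑ q ∈ S, (uenrG Q v q : ℝ) / Q * lh v.1 v.2 =
        (∑ q ∈ S, (uenrG Q v q : ℝ)) / Q * lh v.1 v.2 := by
      rw [Finset.sum_div, Finset.sum_mul]
    rw [a4] at a2
    have a5 : (uenrI Q v : ℝ) / Q * lh v.1 v.2 + (∑ q ∈ S, (uenrG Q v q : ℝ)) / Q * lh v.1 v.2 ≤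
        lh v.1 v.2 := by linarith
    have a6 : (uenrI Q v : ℝ) / Q * lh v.1 v.2 + (∑ q ∈ S, (uenrG Q v q : ℝ)) / Q * lh v.1 v.2 =
        ((uenrI Q v : ℝ) + ∑ q ∈ S, (uenrG Q v q : ℝ)) * lh v.1 v.2 / Q := by ring
    rw [a6, div_le_iff₀ hQ'] at a5
    linarith
  have h3 : ((uenrI Q v + ∑ q ∈ S, uenrG Q v q : ℕ) : ℝ) ≤ Q := le_of_mul_le_mul_right h2 hh
  exact_mod_cast h3

private lemma uenr_W (S : Finset ℕ) (L : ℕ) (δ : ℝ) (hL : 2 / δ ≤ L) (hδ : 0 < δ) (v : ℤ × ℤ)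
    (hh : 0 < lh v.1 v.2) (hH : Heavy δ S v.1 v.2) :
    δ / 2 ≤ ∑ q ∈ S, (uenrG (L * (S.card + 1)) v q : ℝ) / ((L * (S.card + 1) : ℕ) : ℝ) +
      (uenrI (L * (S.card + 1)) v : ℝ) / ((L * (S.card + 1) : ℕ) : ℝ) := by
  have hLpos : (0 : ℝ) < L := lt_of_lt_of_le (by positivity) hL
  have hLpos' : 0 < L := by exact_mod_cast hLpos
  set Q : ℕ := L * (S.card + 1) with hQdef
  have hQ : 0 < Q := by positivity
  have hQ' : (0 : ℝ) < Q := by exact_mod_cast hQ
  have b1 : ∀ q ∈ S, ((vv q (v.1 + v.2) : ℝ) * Real.log q) / lh v.1 v.2 - 1 / Q ≤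
      (uenrG Q v q : ℝ) / Q := by
    intro q _
    have h1 : (Q : ℝ) * ((vv q (v.1 + v.2) : ℝ) * Real.log q) / lh v.1 v.2 < uenrG Q v q + 1 :=
      Nat.lt_floor_add_one _
    have h2 : ((vv q (v.1 + v.2) : ℝ) * Real.log q) / lh v.1 v.2 =
        ((Q : ℝ) * ((vv q (v.1 + v.2) : ℝ) * Real.log q) / lh v.1 v.2) / Q := by
      field_simp
    rw [h2, ← sub_div]
    apply div_le_div_of_nonneg_right _ hQ'.le
    linarith
  have b2 : (lh v.1 v.2 - Real.log |((v.1 + v.2 : ℤ) : ℝ)|) / lh v.1 v.2 - 1 / Q ≤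
      (uenrI Q v : ℝ) / Q := by
    have h1 : (Q : ℝ) * (lh v.1 v.2 - Real.log |((v.1 + v.2 : ℤ) : ℝ)|) / lh v.1 v.2 <
        uenrI Q v + 1 := Nat.lt_floor_add_one _
    have h2 : (lh v.1 v.2 - Real.log |((v.1 + v.2 : ℤ) : ℝ)|) / lh v.1 v.2 =
        ((Q : ℝ) * (lh v.1 v.2 - Real.log |((v.1 + v.2 : ℤ) : ℝ)|) / lh v.1 v.2) / Q := by
      field_simp
    rw [h2, ← sub_div]
    apply div_le_div_of_nonneg_right _ hQ'.le
    linarith
  have b3 := Finset.sum_le_sum b1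
  rw [Finset.sum_sub_distrib, ← Finset.sum_div, Finset.sum_const, nsmul_eq_mul] at b3
  have b4 : δ ≤ (∑ q ∈ S, (vv q (v.1 + v.2) : ℝ) * Real.log q) / lh v.1 v.2 +
      (lh v.1 v.2 - Real.log |((v.1 + v.2 : ℤ) : ℝ)|) / lh v.1 v.2 := by
    rw [← add_div, le_div_iff₀ hh]
    unfold Heavy slog at hH
    linarith
  have b5 : (S.card : ℝ) * (1 / Q) + 1 / Q ≤ δ / 2 := by
    have h5 : (S.card : ℝ) * (1 / Q) + 1 / Q = 1 / L := by
      rw [hQdef]; push_cast; field_simp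
    rw [h5, div_le_iff₀ hLpos]
    rw [div_le_iff₀ hδ] at hL
    linarith
  linarith

theorem uenr_thm (hGAP : S_GAP) (hUPR : S_UPR) (hGCO : S_GCO) (hGEO : S_GEO) : S_UENR := by
  classical
  intro δ hδ0 hδ1
  obtain ⟨kg, Cg, hCg, hg⟩ := hGAP (δ / 2) (by positivity) (by linarith)
  obtain ⟨ku, Cu, hCu, hu⟩ := hUPR (δ / 2) (by positivity) (by linarith)
  obtain ⟨L, hL⟩ := exists_nat_ge (2 / δ)
  obtain ⟨J, hJ⟩ := pow_unbounded_of_one_lt (4 / (δ / 2)) (one_lt_two)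
  have hLpos : (0 : ℝ) < L := lt_of_lt_of_le (by positivity) hL
  have hLpos' : 0 < L := by exact_mod_cast hLpos
  set C : ℝ := max (max Cg Cu) (((J : ℝ) + 1) * 2 ^ (L + 2)) with hC
  have hC1 : Cg ≤ C := le_trans (le_max_left _ _) (le_max_left _ _)
  have hC2 : Cu ≤ C := le_trans (le_max_right _ _) (le_max_left _ _)
  have hC3 : ((J : ℝ) + 1) * 2 ^ (L + 2) ≤ C := le_max_right _ _
  have hC4 : 1 ≤ C := hCg.trans hC1
  refine ⟨max kg ku, C, hC4, ?_⟩
  intro k S α β F hkp hko hk0 hS hα hβ hF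
  have hkg : kg ≤ k := (le_max_left _ _).trans hk0
  have hku : ku ≤ k := (le_max_right _ _).trans hk0
  have hk : 0 < k := hkp.pos
  have hk' : (1 : ℝ) ≤ k := by exact_mod_cast hk
  have hexU : ∀ v : ℤ × ℤ, ∃ U : ℤ, v ∈ F → v.1 = α * U ^ k := by
    intro v
    by_cases hv : v ∈ F
    · obtain ⟨U, hU⟩ := (hF v hv).2.1
      exact ⟨U, fun _ => hU⟩
    · exact ⟨0, fun h => absurd h hv⟩
  have hexV : ∀ v : ℤ × ℤ, ∃ V : ℤ, v ∈ F → v.2 = β * V ^ k := by
    intro v
    by_cases hv : v ∈ F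
    · obtain ⟨U, hU⟩ := (hF v hv).2.2.1
      exact ⟨U, fun _ => hU⟩
    · exact ⟨0, fun h => absurd h hv⟩
  choose U hU using hexU
  choose V hV using hexV
  have hlh : ∀ v ∈ F, 0 < lh v.1 v.2 := by
    intro v hv
    have h1 := (hF v hv).2.2.2.2
    have h2 : 0 < C * k := by positivity
    linarith
  set Q : ℕ := L * (S.card + 1) with hQdef
  have hQ : 0 < Q := by positivity
  have hQ' : (0 : ℝ) < Q := by exact_mod_cast hQ
  -- the code
  set code : ℤ × ℤ → (Option S → ℕ) × (S → ℕ) :=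
    fun v => (uenrC S Q v, fun q => uenrR U V v q.1) with hcode
  -- the set of root labels
  set I : ℕ → Finset ℕ := fun q => insert 0 ((range q).filter
    (fun m : ℕ => (α : ZMod q) * (m : ZMod q) ^ k + (β : ZMod q) = 0 ∧ ¬ (q : ℤ) ∣ α)) with hI
  have hIcard : ∀ q ∈ S, (I q).card ≤ 2 * (if q % k = 1 then k else 1) := by
    intro q hq
    have h1 := uenr_roots q k (hS q hq) hk α β
    have h2 := Finset.card_insert_le 0 ((range q).filter
      (fun m : ℕ => (α : ZMod q) * (m : ZMod q) ^ k + (β : ZMod q) = 0 ∧ ¬ (q : ℤ) ∣ α))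
    simp only [hI]
    by_cases hqk : q % k = 1
    · rw [if_pos hqk]
      omega
    · have h3 := uenr_roots1 q k (hS q hq) hkp hqk α β
      rw [if_neg hqk]
      omega
  have hRmem : ∀ v ∈ F, ∀ q ∈ S, uenrR U V v q ∈ I q := by
    intro v hv q hq
    have : Fact q.Prime := ⟨hS q hq⟩
    unfold uenrR
    split_ifs with hd
    · obtain ⟨a1, b1⟩ := uenr_ndvd (hS q hq) (hF v hv).1.cop hd
      simp only [hI]
      apply Finset.mem_insert_of_mem
      rw [Finset.mem_filter, Finset.mem_range]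
      refine ⟨ZMod.val_lt _, ?_, ?_⟩
      · have hVn : (V v : ZMod q) ≠ 0 := by
          intro h0
          apply b1
          rw [hV v hv]
          exact Dvd.dvd.mul_left
            (dvd_pow ((ZMod.intCast_zmod_eq_zero_iff_dvd _ q).mp h0) hk.ne') β
        have h3 : ((v.1 + v.2 : ℤ) : ZMod q) = 0 :=
          (ZMod.intCast_zmod_eq_zero_iff_dvd _ q).mpr hd
        rw [hU v hv, hV v hv] at h3
        push_cast at h3
        rw [ZMod.natCast_zmod_val, mul_pow, inv_pow]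
        have h4 : (V v : ZMod q) ^ k ≠ 0 := pow_ne_zero _ hVn
        field_simp
        linear_combination h3
      · intro h0
        apply a1
        rw [hU v hv]
        exact Dvd.dvd.mul_right h0 _
    · simp [hI]
  -- number of codes
  have hcodes : (F.image code).card ≤ 2 ^ (Q + (S.card + 1)) *
      (2 ^ S.card * k ^ (S.filter (fun q => q % k = 1)).card) := by
    have h1 : F.image code ⊆ (F.image (uenrC S Q)) ×ˢ
        (Fintype.piFinset (fun q : S => I q.1)) := by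
      intro c hc
      obtain ⟨v, hv, rfl⟩ := Finset.mem_image.mp hc
      rw [Finset.mem_product]
      refine ⟨Finset.mem_image_of_mem _ hv, ?_⟩
      rw [Fintype.mem_piFinset]
      intro q
      exact hRmem v hv q.1 q.2
    refine (Finset.card_le_card h1).trans ?_
    rw [Finset.card_product]
    apply Nat.mul_le_mul
    · have h2 := hGCO (Option S) Q (F.image (uenrC S Q)) (by
        intro g hg
        obtain ⟨v, hv, rfl⟩ := Finset.mem_image.mp hg
        exact uenrC_sum_le S Q hQ v (hlh v hv) (hF v hv).1.z0)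
      simpa using h2
    · rw [Fintype.card_piFinset]
      calc ∏ q : S, (I q.1).card ≤ ∏ q : S, (2 * (if q.1 % k = 1 then k else 1)) := by
            apply Finset.prod_le_prod
            · intro _ _; exact Nat.zero_le _
            · intro q _; exact hIcard q.1 q.2
        _ = ∏ q ∈ S, (2 * (if q % k = 1 then k else 1)) :=
            Finset.prod_coe_sort S (fun q => 2 * (if q % k = 1 then k else 1))
        _ = 2 ^ S.card * k ^ (S.filter (fun q => q % k = 1)).card := by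
            rw [Finset.prod_mul_distrib, Finset.prod_const, Finset.prod_ite, Finset.prod_const,
              Finset.prod_const_one, mul_one]
  -- classes
  have hclass : ∀ a ∈ F.image code, (F.filter (fun v => code v = a)).card ≤ J + 1 := by
    intro a _
    apply hGEO (ℤ × ℤ) (F.filter (fun v => code v = a)) (fun v => lh v.1 v.2) J
    · intro v hv
      exact hlh v (Finset.mem_filter.mp hv).1
    · intro v hv w hw hne hle
      obtain ⟨hvF, hva⟩ := Finset.mem_filter.mp hv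
      obtain ⟨hwF, hwa⟩ := Finset.mem_filter.mp hw
      have hcc : code v = code w := hva.trans hwa.symm
      have hc1 : uenrC S Q v = uenrC S Q w := congrArg Prod.fst hcc
      have hc2 : (fun q : S => uenrR U V v q.1) = (fun q : S => uenrR U V w q.1) :=
        congrArg Prod.snd hcc
      have hgI : uenrI Q v = uenrI Q w := congrFun hc1 none
      have hgG : ∀ q ∈ S, uenrG Q v q = uenrG Q w q := by
        intro q hq
        exact congrFun hc1 (some ⟨q, hq⟩)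
      have hgR : ∀ q ∈ S, uenrR U V v q = uenrR U V w q := by
        intro q hq
        exact congrFun hc2 ⟨q, hq⟩
      have hvh := hlh v hvF
      have hwh := hlh w hwF
      have hdvd : ∀ u ∈ F, ∀ q ∈ S, 0 < (uenrG Q u q : ℝ) / Q → (q : ℤ) ∣ u.1 + u.2 := by
        intro u huF q hq hpos
        have h1 := uenrG_le Q hQ u q (hlh u huF)
        by_contra hnd
        have h2 : vv q (u.1 + u.2) = 0 := by
          unfold vv
          apply Nat.factorization_eq_zero_of_not_dvd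
          intro h
          exact hnd (Int.natCast_dvd.mpr h)
        rw [h2] at h1
        have h3 : 0 < (uenrG Q u q : ℝ) / Q * lh u.1 u.2 := mul_pos hpos (hlh u huF)
        simp at h1
        linarith
      have hlink : Linked k S (fun q => (uenrG Q v q : ℝ) / Q) ((uenrI Q v : ℝ) / Q)
          v.1 v.2 w.1 w.2 (U v * V w) (U w * V v) := by
        apply uenr_linked k hk S hS α β hα hβ v.1 v.2 w.1 w.2 (U v) (V v) (U w) (V w)
          (hF v hvF).1 (hF w hwF).1 (hU v hvF) (hV v hvF) (hU w hwF) (hV w hwF)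
        · intro q _; positivity
        · positivity
        · intro q _; exact uenrG_le Q hQ v q hvh
        · intro q hq
          rw [hgG q hq]; exact uenrG_le Q hQ w q hwh
        · exact uenrI_le Q hQ v hvh (hF v hvF).1.z0
        · rw [hgI]; exact uenrI_le Q hQ w hwh (hF w hwF).1.z0
        · intro q hq hpos
          have : Fact q.Prime := ⟨hS q hq⟩
          have hd1 := hdvd v hvF q hq hpos
          have hd2 := hdvd w hwF q hq (by rw [← hgG q hq]; exact hpos)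
          have h1 := hgR q hq
          unfold uenrR at h1
          rw [if_pos hd1, if_pos hd2] at h1
          exact ZMod.val_injective q h1
        · intro q hq hpos
          exact ⟨hdvd v hvF q hq hpos, hdvd w hwF q hq (by rw [← hgG q hq]; exact hpos)⟩
      have hW : δ / 2 ≤ ∑ q ∈ S, (uenrG Q v q : ℝ) / Q + (uenrI Q v : ℝ) / Q :=
        uenr_W S L δ hL hδ0 v hvh (hF v hvF).2.2.2.1
      have hbig : C * k ≤ lh v.1 v.2 := (hF v hvF).2.2.2.2
      constructor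
      · refine hg k S _ _ v.1 v.2 w.1 w.2 _ _ hkp hko hkg hlink hW ?_ hle ?_
        · exact le_trans (mul_le_mul_of_nonneg_right hC1 (by positivity)) hbig
        · simpa using hne
      · have h5 := hu k S _ _ v.1 v.2 w.1 w.2 _ _ hkp hko hku hlink hW
          (le_trans (mul_le_mul_of_nonneg_right hC2 (by positivity)) hbig) hle
        refine h5.trans ?_
        exact mul_le_mul_of_nonneg_right hJ.le hvh.le
  have hmain := Finset.card_le_mul_card_image (f := code) F (J + 1) hclass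
  set m : ℕ := (S.filter (fun q => q % k = 1)).card with hm
  have hfin : F.card ≤ (J + 1) * (2 ^ (Q + (S.card + 1)) * (2 ^ S.card * k ^ m)) :=
    hmain.trans (Nat.mul_le_mul_left _ hcodes)
  have hfin' : (F.card : ℝ) ≤ (J + 1) * (2 ^ (Q + (S.card + 1)) * (2 ^ S.card * k ^ m)) := by
    exact_mod_cast hfin
  refine hfin'.trans ?_
  have h6 : C ^ (S.card + 1) ≥ (((J : ℝ) + 1) * 2 ^ (L + 2)) ^ (S.card + 1) := by
    apply pow_le_pow_left₀ (by positivity)
    exact hC3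
  have h7 : ((J : ℝ) + 1) ≤ ((J : ℝ) + 1) ^ (S.card + 1) := by
    apply le_self_pow₀ _ (by omega)
    have : (0 : ℝ) ≤ J := Nat.cast_nonneg _
    linarith
  have e1 : Q + (S.card + 1) + S.card ≤ (L + 2) * (S.card + 1) := by
    rw [hQdef]; ring_nf; omega
  have e2 : (2 : ℝ) ^ (Q + (S.card + 1)) * 2 ^ S.card ≤ (2 ^ (L + 2)) ^ (S.card + 1) := by
    rw [← pow_add, ← pow_mul]
    exact pow_le_pow_right₀ (by norm_num) e1
  have hkm : (0 : ℝ) ≤ (k : ℝ) ^ m := by positivity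
  calc ((J : ℝ) + 1) * (2 ^ (Q + (S.card + 1)) * (2 ^ S.card * (k : ℝ) ^ m))
      = (((J : ℝ) + 1) * (2 ^ (Q + (S.card + 1)) * 2 ^ S.card)) * (k : ℝ) ^ m := by ring
    _ ≤ (((J : ℝ) + 1) ^ (S.card + 1) * (2 ^ (L + 2)) ^ (S.card + 1)) * (k : ℝ) ^ m := by
        apply mul_le_mul_of_nonneg_right _ hkm
        exact mul_le_mul h7 e2 (by positivity) (by positivity)
    _ = (((J : ℝ) + 1) * 2 ^ (L + 2)) ^ (S.card + 1) * (k : ℝ) ^ m := by rw [mul_pow]
    _ ≤ C ^ (S.card + 1) * (k : ℝ) ^ m := mul_le_mul_of_nonneg_right h6 hkm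

end Pool.Agent.H98.ABCR
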